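import Mathlib
import Pool.Agent.W236.SC.Defs2

/-!
Project SC: impossible pattern from the Walk Lemma.
-/

set_option autoImplicit false

namespace Pool.Agent.W540.SC

open Pool.Agent.Helper741 Pool.Agent.W236.SC

variable {B : Type*} [Fintype B] [DecidableEq B] {M : CoxeterMatrix B}
variable {W : Type*} [Group W] (cs : CoxeterSystem M W)

lemma geo_inv_geo (w : W) (v : B → ℝ) : geo cs w⁻¹ (geo cs w v) = v := by
  rw [← Module.End.mul_apply, ← map_mul, inv_mul_cancel, map_one, Module.End.one_apply]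

lemma geo_geo_inv (w : W) (v : B → ℝ) : geo cs w (geo cs w⁻¹ v) = v := by
  rw [← Module.End.mul_apply, ← map_mul, mul_inv_cancel, map_one, Module.End.one_apply]

/-- the sum of the coordinates outside `{x, y}` -/
noncomputable def zz (x y : B) : (B → ℝ) →ₗ[ℝ] ℝ :=
  ∑ i, (if i ≠ x ∧ i ≠ y then (1 : ℝ) else 0) • LinearMap.proj i

lemma zz_apply (x y : B) (v : B → ℝ) :
    zz x y v = ∑ i, (if i ≠ x ∧ i ≠ y then (1 : ℝ) else 0) * v i := by
  simp only [zz, LinearMap.sum_apply, LinearMap.smul_apply, LinearMap.proj_apply, smul_eq_mul]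

lemma zz_nonneg (x y : B) (v : B → ℝ) (hv : 0 ≤ v) : 0 ≤ zz x y v := by
  rw [zz_apply]
  refine Finset.sum_nonneg fun i _ => mul_nonneg ?_ (hv i)
  split_ifs <;> norm_num

lemma zz_pos (x y : B) (v : B → ℝ) (hv : 0 ≤ v) (h : ∃ i, i ≠ x ∧ i ≠ y ∧ v i ≠ 0) :
    0 < zz x y v := by
  obtain ⟨i, hx, hy, hi⟩ := h
  rw [zz_apply]
  refine Finset.sum_pos' (fun j _ => mul_nonneg ?_ (hv j)) ⟨i, Finset.mem_univ i, ?_⟩
  · split_ifs <;> norm_num
  · rw [if_pos ⟨hx, hy⟩, one_mul]
    exact lt_of_le_of_ne (hv i) (Ne.symm hi)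

lemma ee_apply_ne {i j : B} (h : j ≠ i) : (ee i : B → ℝ) j = 0 := by
  simp [ee, Pi.single_apply, h]

lemma ee_apply_self (i : B) : (ee i : B → ℝ) i = 1 := by
  simp [ee]

lemma zz_ee_left (x y : B) : zz x y (ee x) = 0 := by
  rw [zz_apply]
  refine Finset.sum_eq_zero fun i _ => ?_
  split_ifs with h
  · rw [ee_apply_ne h.1, mul_zero]
  · rw [zero_mul]

lemma zz_ee_right (x y : B) : zz x y (ee y) = 0 := by
  rw [zz_apply]
  refine Finset.sum_eq_zero fun i _ => ?_
  split_ifs with h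
  · rw [ee_apply_ne h.2, mul_zero]
  · rw [zero_mul]

/-- the Walk Lemma for a walk which ends in a simple root -/
lemma wl_end (hWL : S_WL cs) {n : ℕ} {q : ℕ → B} {N : Set ℕ} {h : ℕ → W} {a b : ℕ} {γ : B → ℝ}
    (hA : AltM M n q) (hab : a < b) (hbn : b ≤ n)
    (hU : ∀ k, a < k → k < b → k ∈ N → h (k + 1) = h k * cs.simple (q k))
    (hS : ∀ k, a < k → k < b → k ∉ N → h (k + 1) = h k)
    (h0 : geo cs (h (a + 1))⁻¹ γ = ee (q a))
    (hne : ∀ k, a < k → k < b → k ∈ N → geo cs (h k)⁻¹ γ ≠ ee (q k))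
    (hb : geo cs (h b)⁻¹ γ = ee (q b)) :
    ∃ (c : ℕ → ℝ) (c' : ℝ), (∀ k, 0 ≤ c k) ∧ 0 ≤ c' ∧ c' ≤ 1 ∧
      γ - ∑ j ∈ Finset.Ioo a b, c j • geo cs (h j) (ee (q j)) = c' • γ ∧
      (∀ k, a < k → k < b → k ∈ N → c k ≠ 0 →
        ∃ i, a < i ∧ i < k ∧ i ∈ N ∧ geo cs (h k) (ee (q k)) = - geo cs (h i) (ee (q i))) ∧
      ((∀ k, a < k → k < b → c k = 0) →
        ∀ k, a < k → k < b → k ∉ N → (geo cs (h k)⁻¹ γ) (q k) = 0) := by
  obtain ⟨c, hc0, hc1, hc2, hc3⟩ := hWL n q N h a b γ hA hab hbn hU hS h0 hne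
  have hb1 := hc1 b hab le_rfl
  rw [hb] at hb1
  set w := geo cs (h b)⁻¹ (γ - ∑ j ∈ Finset.Ioo a b, c j • geo cs (h j) (ee (q j))) with hw
  have hw0 : ∀ i, 0 ≤ w i := fun i => hb1.1 i
  have hw1 : ∀ i, w i ≤ (ee (q b) : B → ℝ) i := fun i => hb1.2 i
  have hweq : w = w (q b) • (ee (q b) : B → ℝ) := by
    funext i
    by_cases hi : i = q b
    · rw [hi, Pi.smul_apply, ee_apply_self, smul_eq_mul, mul_one]
    · have h1 := hw1 i
      rw [ee_apply_ne hi] at h1
      rw [Pi.smul_apply, ee_apply_ne hi, smul_zero]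
      exact le_antisymm h1 (hw0 i)
  have hγ : geo cs (h b) (ee (q b)) = γ := by
    rw [← hb, geo_geo_inv]
  refine ⟨c, w (q b), hc0, hw0 _, ?_, ?_, hc3, ?_⟩
  · have h1 := hw1 (q b)
    rwa [ee_apply_self] at h1
  · have h1 : geo cs (h b) w =
        γ - ∑ j ∈ Finset.Ioo a b, c j • geo cs (h j) (ee (q j)) := by
      rw [hw, geo_geo_inv]
    rw [← h1]
    conv_lhs => rw [hweq]
    rw [map_smul, hγ]
  · intro hall k hak hkb hkN
    have h1 := hc2 k hak hkb hkN
    have h2 : ∑ j ∈ Finset.Ioo a k, c j • geo cs (h j) (ee (q j)) = 0 := by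
      refine Finset.sum_eq_zero fun j hj => ?_
      rw [Finset.mem_Ioo] at hj
      rw [hall j hj.1 (by omega), zero_smul]
    rw [h2, sub_zero, hall k hak hkb] at h1
    exact h1.symm

/-- **ALT.** -/
theorem alt_ (hB : BaseF cs) (hWL : S_WL cs) (hE : S_EINV cs) : S_ALT cs := by
  intro n q N h x y t0 k1 k2 M0 hA hxy hMxy h01 h12 h20 hMn H1 H2 H3 H4 H5 H6 hk1N hk2N H8 H9
    H10 H11
  set r : ℕ → (B → ℝ) := fun k => geo cs (h k) (ee (q k)) with hr
  have hrt : ∀ k, IsRt cs (r k) := fun k => ⟨h k, q k, rfl⟩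
  have hinv : ∀ k (γ : B → ℝ), geo cs (h k)⁻¹ γ = ee (q k) → r k = γ := by
    intro k γ hk
    simp only [hr]
    rw [← hk, geo_geo_inv]
  have hout : ∀ k, t0 < k → k < M0 → k ∈ N → r k ≠ ee x ∧ r k ≠ ee y := by
    intro k hk1 hk2 hkN
    obtain ⟨i, hix, hiy, hi⟩ := H10 k hk1 hk2 hkN
    refine ⟨fun h1 => hi ?_, fun h1 => hi ?_⟩
    · show r k i = 0
      rw [h1, ee_apply_ne hix]
    · show r k i = 0
      rw [h1, ee_apply_ne hiy]
  -- part 0
  have P0 : ∀ k, k1 < k → k < k2 → k ∉ N → (geo cs (h k)⁻¹ (ee x)) (q k) = 0 := by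
    obtain ⟨c, c', hc0, -, -, hsum, hbirth, hfin⟩ := wl_end cs hWL (γ := ee x) hA h12 (by omega)
      (fun k hk hk' hkN => H1 k (by omega) (by omega) hkN)
      (fun k hk hk' hkN => H2 k (by omega) (by omega) hkN)
      (by rw [H2 k1 h01 (by omega) hk1N]; exact H5)
      (fun k hk hk' hkN heq => (hout k (by omega) (by omega) hkN).1 (hinv k _ heq)) H6
    refine hfin ?_
    have hu : ∀ k, k1 < k → k < k2 → k ∈ N → c k = 0 := by
      intro k hk hk' hkN
      by_contra hne
      obtain ⟨i, hi1, hi2, hiN, hi3⟩ := hbirth k hk hk' hkN hne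
      have := (H11 i k (by omega) hi2 (by omega) hiN hkN hi3).1
      omega
    have hz := congrArg (zz x y) hsum
    rw [map_sub, map_sum, map_smul, zz_ee_left, smul_zero, zero_sub, neg_eq_zero] at hz
    have hterm : ∀ j ∈ Finset.Ioo k1 k2, 0 ≤ zz x y (c j • geo cs (h j) (ee (q j))) := by
      intro j hj
      rw [Finset.mem_Ioo] at hj
      rw [map_smul, smul_eq_mul]
      by_cases hjN : j ∈ N
      · rw [hu j hj.1 hj.2 hjN, zero_mul]
      · rcases H8 j (by omega) (by omega) hjN with h1 | h1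
        · exact absurd h1 (H9 j hj.1 hj.2 hjN)
        · exact mul_nonneg (hc0 j) (zz_nonneg x y _ h1.1)
    have hall := (Finset.sum_eq_zero_iff_of_nonneg hterm).mp hz
    intro k hk hk'
    by_cases hkN : k ∈ N
    · exact hu k hk hk' hkN
    · have h1 := hall k (Finset.mem_Ioo.mpr ⟨hk, hk'⟩)
      rw [map_smul, smul_eq_mul] at h1
      rcases H8 k (by omega) (by omega) hkN with h2 | h2
      · exact absurd h2 (H9 k hk hk' hkN)
      · rcases mul_eq_zero.mp h1 with h3 | h3
        · exact h3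
        · exact absurd h3 (zz_pos x y _ h2.1 h2.2).ne'
  -- vanishing of all coefficients
  have KEY : ∀ (a b : ℕ) (γ : B → ℝ) (c : ℕ → ℝ) (c' : ℝ), t0 ≤ a → b ≤ M0 → (∀ k, 0 ≤ c k) →
      c' ≤ 1 →
      γ - ∑ j ∈ Finset.Ioo a b, c j • geo cs (h j) (ee (q j)) = c' • γ →
      (∀ k, a < k → k < b → k ∈ N → c k ≠ 0 → 0 ≤ r k) →
      (zz x y γ < 0 ∨ γ = ee y) → ∀ k, a < k → k < b → c k = 0 := by
    intro a b γ c c' ha hb hc0 hc1 hsum hpos hγ
    have hsum' : ∑ j ∈ Finset.Ioo a b, c j • geo cs (h j) (ee (q j)) = (1 - c') • γ := by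
      rw [sub_smul, one_smul, ← hsum]
      abel
    have hz := congrArg (zz x y) hsum'
    rw [map_sum, map_smul, smul_eq_mul] at hz
    have hterm : ∀ j ∈ Finset.Ioo a b, 0 ≤ zz x y (c j • geo cs (h j) (ee (q j))) := by
      intro j hj
      rw [Finset.mem_Ioo] at hj
      rw [map_smul, smul_eq_mul]
      by_cases hjN : j ∈ N
      · by_cases hcj : c j = 0
        · rw [hcj, zero_mul]
        · exact mul_nonneg (hc0 j) (zz_nonneg x y _ (hpos j hj.1 hj.2 hjN hcj))
      · rcases H8 j (by omega) (by omega) hjN with h1 | h1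
        · rw [h1, zz_ee_left, mul_zero]
        · exact mul_nonneg (hc0 j) (zz_nonneg x y _ h1.1)
    have hsum0 : 0 ≤ ∑ j ∈ Finset.Ioo a b, zz x y (c j • geo cs (h j) (ee (q j))) :=
      Finset.sum_nonneg hterm
    have hprod : (1 - c') * zz x y γ = 0 := by
      rcases hγ with h1 | h1
      · have h2 : (1 - c') * zz x y γ ≤ 0 :=
          mul_nonpos_of_nonneg_of_nonpos (by linarith) h1.le
        linarith
      · rw [h1, zz_ee_right, mul_zero]
    rw [hprod] at hz
    have hall := (Finset.sum_eq_zero_iff_of_nonneg hterm).mp hz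
    -- coefficients away from `x`
    have hne : ∀ j ∈ Finset.Ioo a b, c j = 0 ∨ geo cs (h j) (ee (q j)) = ee x := by
      intro j hj
      have h1 := hall j hj
      rw [Finset.mem_Ioo] at hj
      rw [map_smul, smul_eq_mul] at h1
      by_cases hcj : c j = 0
      · exact Or.inl hcj
      · have h2 : zz x y (geo cs (h j) (ee (q j))) = 0 := by
          rcases mul_eq_zero.mp h1 with h3 | h3
          · exact absurd h3 hcj
          · exact h3
        by_cases hjN : j ∈ N
        · have h4 := zz_pos x y _ (hpos j hj.1 hj.2 hjN hcj)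
            (H10 j (by omega) (by omega) hjN)
          exact absurd h2 h4.ne'
        · rcases H8 j (by omega) (by omega) hjN with h5 | h5
          · exact Or.inr h5
          · exact absurd h2 (zz_pos x y _ h5.1 h5.2).ne'
    -- evaluate at `x`
    have hx0 : (∑ j ∈ Finset.Ioo a b, c j • geo cs (h j) (ee (q j))) x = 0 := by
      rw [hsum']
      rcases hγ with h1 | h1
      · have h2 : 1 - c' = 0 := by
          rcases mul_eq_zero.mp hprod with h3 | h3
          · exact h3
          · exact absurd h3 h1.ne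
        rw [h2, zero_smul, Pi.zero_apply]
      · rw [h1, Pi.smul_apply, ee_apply_ne hxy, smul_zero]
    rw [Finset.sum_apply] at hx0
    have hterm2 : ∀ j ∈ Finset.Ioo a b, (c j • geo cs (h j) (ee (q j))) x = c j := by
      intro j hj
      rcases hne j hj with h1 | h1
      · rw [h1, zero_smul, Pi.zero_apply]
      · rw [h1, Pi.smul_apply, ee_apply_self, smul_eq_mul, mul_one]
    rw [Finset.sum_congr rfl hterm2] at hx0
    have hall2 := (Finset.sum_eq_zero_iff_of_nonneg (fun j _ => hc0 j)).mp hx0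
    intro k hk hk'
    exact hall2 k (Finset.mem_Ioo.mpr ⟨hk, hk'⟩)
  have hk1' : geo cs (h (k1 + 1))⁻¹ (ee x) = ee (q k1) := by
    rw [H2 k1 h01 (by omega) hk1N]
    exact H5
  -- part 1
  have P1 : ∀ l i, t0 < i → i < l → l < M0 → i ∈ N → l ∈ N → r l = - r i → 0 ≤ r l := by
    intro l
    induction l using Nat.strong_induction_on with
    | _ l ih =>
      intro i hi hil hl hiN hlN heq
      by_contra hneg
      have hle : r l ≤ 0 := by
        rcases hB.rt_sign (r l) (hrt l) with h1 | h1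
        · exact absurd h1 hneg
        · exact h1
      have hstart : geo cs (h (i + 1))⁻¹ (r l) = ee (q i) := by
        have h1 : r l = geo cs (h (i + 1)) (ee (q i)) := by
          rw [heq, H1 i hi (by omega) hiN, map_mul, Module.End.mul_apply, geo_simple,
            sg_ee_self, map_neg]
        rw [h1, geo_inv_geo]
      have hend : geo cs (h l)⁻¹ (r l) = ee (q l) := geo_inv_geo cs _ _
      obtain ⟨c, c', hc0, -, hc1, hsum, hbirth, hfin⟩ := wl_end cs hWL (γ := r l) hA hil
        (by omega)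
        (fun k hk hk' hkN => H1 k (by omega) (by omega) hkN)
        (fun k hk hk' hkN => H2 k (by omega) (by omega) hkN) hstart
        (fun k hk hk' hkN heq' => by
          have h1 := hinv k _ heq'
          have h2 := ih k hk' i hi hk (by omega) hiN hkN (by rw [h1, heq])
          rw [h1] at h2
          exact hneg h2) hend
      have hzneg : zz x y (r l) < 0 := by
        have h1 : 0 ≤ - r l := neg_nonneg.mpr hle
        have h2 := zz_pos x y (- r l) h1 (by
          obtain ⟨i', h3, h4, h5⟩ := H10 l (by omega) hl hlN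
          exact ⟨i', h3, h4, by simpa using h5⟩)
        rw [map_neg] at h2
        linarith
      have hc := KEY i l (r l) c c' (by omega) (by omega) hc0 hc1 hsum (by
        intro k hk hk' hkN hne
        obtain ⟨i'', h1, h2, h3, h4⟩ := hbirth k hk hk' hkN hne
        exact ih k hk' i'' (by omega) h2 (by omega) h3 hkN h4) (Or.inl hzneg)
      have hz := hfin hc
      obtain ⟨hik1, hk2l, hfrm⟩ := H11 i l hi hil hl hiN hlN heq
      have hEE := hE n q N h k1 k2 (ee x) (r l) hA h12 (by omega)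
        (fun k hk hk' hkN => H1 k (by omega) (by omega) hkN)
        (fun k hk hk' hkN => H2 k (by omega) (by omega) hkN) hk1' H6
        (fun k hk hk' hkN => ⟨P0 k hk hk' hkN, hz k (by omega) (by omega) hkN⟩)
      rw [H2 k1 h01 (by omega) hk1N, hz k1 hik1 (by omega) hk1N, hz k2 (by omega) hk2l hk2N,
        sub_zero] at hEE
      have h5 : frm M (ee x) (r l) = - frm M (r i) (ee x) := by
        rw [heq, show - r i = (-1 : ℝ) • r i by simp, hB.frm_smul, hB.frm_symm]
        ring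
      rw [h5] at hEE
      have hfrm' : 0 < frm M (r i) (ee x) := hfrm
      linarith
  -- part 2
  obtain ⟨c, c', hc0, -, hc1, hsum, hbirth, hfin⟩ := wl_end cs hWL (γ := ee y) hA
    (show t0 < M0 by omega) (by omega) H1 H2 H3
    (fun k hk hk' hkN heq => (hout k hk hk' hkN).2 (hinv k _ heq)) H4
  have hc := KEY t0 M0 (ee y) c c' le_rfl le_rfl hc0 hc1 hsum (by
    intro k hk hk' hkN hne
    obtain ⟨i, h1, h2, h3, h4⟩ := hbirth k hk hk' hkN hne
    exact P1 k i h1 h2 hk' h3 hkN h4) (Or.inr rfl)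
  have hz := hfin hc
  have hEE := hE n q N h k1 k2 (ee x) (ee y) hA h12 (by omega)
    (fun k hk hk' hkN => H1 k (by omega) (by omega) hkN)
    (fun k hk hk' hkN => H2 k (by omega) (by omega) hkN) hk1' H6
    (fun k hk hk' hkN => ⟨P0 k hk hk' hkN, hz k (by omega) (by omega) hkN⟩)
  rw [H2 k1 h01 (by omega) hk1N, hz k1 h01 (by omega) hk1N, hz k2 (by omega) h20 hk2N,
    sub_zero, hB.frm_ee, coroot_ee] at hEE
  have hcc : cc M x y = 0 := by linarith
  unfold cc at hcc
  have hM1 : M x y ≠ 1 := M.off_diagonal x y hxy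
  rcases Nat.eq_zero_or_pos (M x y) with h0 | hpos
  · rw [h0] at hcc
    simp at hcc
  · have h3 : 3 ≤ M x y := by omega
    have h3' : (3 : ℝ) ≤ (M x y : ℝ) := by exact_mod_cast h3
    have hpi := Real.pi_pos
    have : 0 < Real.cos (Real.pi / (M x y : ℝ)) := by
      refine Real.cos_pos_of_mem_Ioo ⟨?_, ?_⟩
      · have : 0 < Real.pi / (M x y : ℝ) := by positivity
        linarith
      · rw [div_lt_div_iff₀ (by linarith) two_pos]
        nlinarith
    exact absurd hcc this.ne'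

end Pool.Agent.W540.SC
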